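import Pool.Agent.U165.SC.Avg
import Pool.Agent.U165.SC.Main

set_option autoImplicit false

/-!
# The average height of the randomly perturbed 3x+1 map: the conjectured constant is an upper bound

The map is fixed: it is the accelerated 3x+1 map `T` on the integers.  To the value at each integer `x` a bounded
random integer `ω x` is added, which is odd with probability `1/2` (for instance `0` or `1`, with probability `1/2`
each); the `ω x`, `x ∈ ℤ`, are independent, and are chosen once and for all, so `x ↦ T x + ω x` is a fixed map.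

1. Almost surely all orbits are finite, and the average of the number of their elements over the odd `m ≤ X` is at most
   `(2 / log (4/3) + ε) log X` for large `X`.  This is the upper half of the asymptotic formula of the question, for
   almost all perturbed maps; the constant is the conjectured one, if all steps of `T` are counted, not only the odd
   ones (half of them).
2. The same for all generalized 3x+1 maps with positive multipliers and negative drift, with the constant `1 / drift`
   and uniformly over all sets of starting points: for all `A ⊆ [-X, X]` the sum of the numbers of elements of the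
   orbits is at most `(#A / drift + ε X) log X`.

Proof: the number of the `|x| ≤ X` with an orbit of more than `α log |x|` elements, `α > 1 / drift`, is at most `X ^ E`
with `E < 1` (large deviations for the annealed chain), and all orbits have `O(log |x|)` elements.  The true orbits are
compared with the annealed chain up to their first repetition (project RP, helper762, helper511, helper97, helper898).
-/

namespace Pool.Agent.Results.MP_2b866c_nt.AlmostSureAverage

open MeasureTheory Filter Finset
open scoped ENNReal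

/-- The accelerated `3x+1` map on the integers. -/
def T (x : ℤ) : ℤ := if x % 2 = 0 then x / 2 else (3 * x + 1) / 2

/-- The generalized 3x+1 map: `(m_j x - r_j)/d` for `x ≡ j` modulo `d`. -/
def gen (d : ℕ) (m r : ℤ → ℤ) (x : ℤ) : ℤ := (m (x % d) * x - r (x % d)) / d

/-- The conditions on the generalized 3x+1 map: `d ≥ 2`, the `m_j` are positive and the divisions are exact. The map
need not be of relatively prime type. -/
structure Collatz (d : ℕ) (m r : ℤ → ℤ) : Prop where
  two_le : 2 ≤ d
  pos : ∀ j : ℤ, 0 ≤ j → j < d → 0 < m j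
  dvd : ∀ j : ℤ, 0 ≤ j → j < d → (d : ℤ) ∣ m j * j - r j

/-- The map `S` perturbed by `ω`. -/
def pert (S ω : ℤ → ℤ) (x : ℤ) : ℤ := S x + ω x

/-- The orbit of `x` under the perturbed map. -/
def orbit (S ω : ℤ → ℤ) (x : ℤ) : Set ℤ := Set.range fun i : ℕ => (pert S ω)^[i] x

/-- The conditions on the law of the perturbations: they are bounded by `B`, and their residues modulo `d` are
equidistributed. -/
structure Law (d B : ℕ) (μ : Measure ℤ) : Prop where
  bdd : μ {u : ℤ | (B : ℤ) < |u|} = 0
  equi : ∀ j : ℤ, 0 ≤ j → j < d → μ {u : ℤ | u % (d : ℤ) = j} = (d : ℝ≥0∞)⁻¹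

/-- The law of independent perturbations `ω x`, `x ∈ ℤ`, each with law `μ`. -/
noncomputable def environment (μ : Measure ℤ) [IsProbabilityMeasure μ] : Measure (ℤ → ℤ) :=
  Measure.infinitePi fun _ : ℤ => μ

/-- Minus the mean of `log (m_j / d)` over the residues `j`. -/
noncomputable def drift (d : ℕ) (m : ℤ → ℤ) : ℝ := -(∑ j ∈ range d, Real.log ((m (j : ℤ) : ℝ) / d)) / d

/-- The average, over the odd positive integers up to `X`, of the number of elements of the orbit. -/
noncomputable def average (ω : ℤ → ℤ) (X : ℕ) : ℝ :=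
  2 / X * ∑ m ∈ (Icc (1 : ℤ) X).filter (fun m => m % 2 = 1), ((orbit T ω m).ncard : ℝ)

theorem pert_T (ω : ℤ → ℤ) : Pool.Agent.U762.RP.stp 2 (Pool.Agent.U762.RP.mq 3) Pool.Agent.U762.RP.rq ω =
    pert T ω := by
  rw [Pool.Agent.U165.SC.stp_col]
  funext x
  unfold pert T Pool.Agent.U762.RP.col
  norm_num

theorem dr_three : Pool.Agent.U165.SC.dr 2 (Pool.Agent.U762.RP.mq 3) = Real.log (4 / 3) / 2 := by
  unfold Pool.Agent.U165.SC.dr Pool.Agent.U762.RP.mq
  have h : Real.log (4 / 3) = -(Real.log (1 / 2) + Real.log (3 / 2)) := by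
    rw [← Real.log_mul (by norm_num) (by norm_num), ← Real.log_inv]
    norm_num
  rw [h]
  norm_num [Finset.sum_range_succ]

theorem card_odd (X : ℕ) : (((Icc (1 : ℤ) X).filter (fun m => m % 2 = 1)).card : ℝ) ≤ (X + 1) / 2 := by
  have h : (Icc (1 : ℤ) X).filter (fun m => m % 2 = 1) ⊆
      (range ((X + 1) / 2)).image (fun j : ℕ => (2 * (j : ℤ) + 1)) := by
    intro m hm
    rw [mem_filter, mem_Icc] at hm
    rw [mem_image]
    refine ⟨(m / 2).toNat, ?_, ?_⟩
    · rw [mem_range]
      omega
    · omega
  have h1 := (card_le_card h).trans card_image_le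
  rw [card_range] at h1
  have h2 : (((X + 1) / 2 : ℕ) : ℝ) ≤ ((X + 1 : ℕ) : ℝ) / 2 := by
    have := @Nat.cast_div_le ℝ _ _ _ (X + 1) 2
    exact_mod_cast this
  have h3 : (((Icc (1 : ℤ) X).filter (fun m => m % 2 = 1)).card : ℝ) ≤ (((X + 1) / 2 : ℕ) : ℝ) := by
    exact_mod_cast h1
  push_cast at h2 h3 ⊢
  linarith

theorem result :
    (∀ (B : ℕ) (μ : Measure ℤ) [IsProbabilityMeasure μ], Law 2 B μ →
      ∀ᵐ ω ∂(environment μ), (∀ x : ℤ, (orbit T ω x).Finite) ∧
        ∀ ε : ℝ, 0 < ε → ∃ N : ℕ, ∀ X : ℕ, N ≤ X →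
          average ω X ≤ (2 / Real.log (4 / 3) + ε) * Real.log X) ∧
    (∀ (d : ℕ) (m r : ℤ → ℤ), Collatz d m r → 0 < drift d m →
      ∀ (B : ℕ) (μ : Measure ℤ) [IsProbabilityMeasure μ], Law d B μ →
        ∀ᵐ ω ∂(environment μ), (∀ x : ℤ, (orbit (gen d m r) ω x).Finite) ∧
          ∀ ε : ℝ, 0 < ε → ∃ N : ℕ, ∀ X : ℕ, N ≤ X → ∀ A : Finset ℤ, A ⊆ Icc (-(X : ℤ)) X →
            ∑ x ∈ A, ((orbit (gen d m r) ω x).ncard : ℝ) ≤
              (A.card / drift d m + ε * X) * Real.log X) := by
  refine ⟨?_, ?_⟩
  · intro B μ _ hL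
    have hR0 := Pool.Agent.U762.RP.rel_col (q := 3) (by decide)
    have hR : Pool.Agent.U165.SC.GenC 2 (Pool.Agent.U762.RP.mq 3) Pool.Agent.U762.RP.rq :=
      ⟨hR0.two_le, hR0.pos, hR0.dvd⟩
    have hlog : 0 < Real.log (4 / 3) := Real.log_pos (by norm_num)
    have h := Pool.Agent.U165.SC.avg hR B μ hL.bdd hL.equi (by rw [dr_three]; positivity)
    unfold environment
    filter_upwards [h] with ω hω
    rw [pert_T, dr_three] at hω
    refine ⟨hω.1, fun ε hε => ?_⟩
    obtain ⟨N, hN⟩ := hω.2 (ε / 4) (by positivity)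
    obtain ⟨N₁, hN₁⟩ := exists_nat_gt (max 1 ((2 / Real.log (4 / 3)) / (ε / 2)))
    refine ⟨max N N₁, fun X hX => ?_⟩
    have hXN : N ≤ X := (le_max_left _ _).trans hX
    have hXN₁ : (N₁ : ℝ) ≤ X := by exact_mod_cast (le_max_right N N₁).trans hX
    have hX1 : (1 : ℝ) ≤ X := ((le_max_left _ _).trans hN₁.le).trans hXN₁
    have hX0 : (0 : ℝ) < X := by linarith
    have hX2 : (2 / Real.log (4 / 3)) / (ε / 2) ≤ X := ((le_max_right _ _).trans hN₁.le).trans hXN₁
    have h1 := hN X hXN ((Icc (1 : ℤ) X).filter (fun m => m % 2 = 1)) (by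
      intro m hm
      rw [mem_filter, mem_Icc] at hm
      rw [mem_Icc]
      omega)
    have h2 : 1 / (Real.log (4 / 3) / 2) = 2 / Real.log (4 / 3) := by rw [one_div_div]
    rw [h2] at h1
    set c : ℝ := 2 / Real.log (4 / 3) with hc
    have hc0 : 0 < c := by positivity
    have h3 := card_odd X
    have hl0 : 0 ≤ Real.log X := Real.log_nonneg hX1
    have h4 : c ≤ X * (ε / 2) := by
      rwa [div_le_iff₀ (by positivity)] at hX2
    have h5 : c * (((Icc (1 : ℤ) X).filter (fun m => m % 2 = 1)).card : ℝ) + ε / 4 * X ≤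
        X / 2 * (c + ε) := by
      have h6 := mul_le_mul_of_nonneg_left h3 hc0.le
      nlinarith
    have h7 : ∑ x ∈ (Icc (1 : ℤ) X).filter (fun m => m % 2 = 1), ((orbit T ω x).ncard : ℝ) ≤
        X / 2 * (c + ε) * Real.log X := h1.trans (mul_le_mul_of_nonneg_right h5 hl0)
    unfold average
    calc 2 / (X : ℝ) * ∑ x ∈ (Icc (1 : ℤ) X).filter (fun m => m % 2 = 1), ((orbit T ω x).ncard : ℝ)
        ≤ 2 / (X : ℝ) * (X / 2 * (c + ε) * Real.log X) :=
          mul_le_mul_of_nonneg_left h7 (by positivity)
      _ = (c + ε) * Real.log X := by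
          field_simp
  · intro d m r hC hdr B μ _ hL
    have hR : Pool.Agent.U165.SC.GenC d m r := ⟨hC.two_le, hC.pos, hC.dvd⟩
    have h := Pool.Agent.U165.SC.avg hR B μ hL.bdd hL.equi hdr
    unfold environment
    filter_upwards [h] with ω hω
    refine ⟨hω.1, fun ε hε => ?_⟩
    obtain ⟨N, hN⟩ := hω.2 ε hε
    refine ⟨N, fun X hX A hA => (hN X hX A hA).trans (le_of_eq ?_)⟩
    have h1 : 1 / Pool.Agent.U165.SC.dr d m * (A.card : ℝ) = A.card / drift d m := by
      have h0 : Pool.Agent.U165.SC.dr d m = drift d m := rfl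
      rw [h0, one_div, mul_comm, ← div_eq_mul_inv]
    rw [h1]

end Pool.Agent.Results.MP_2b866c_nt.AlmostSureAverage
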