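import Pool.Agent.U457.PS.CM2

set_option autoImplicit false

/-!
The average order of the heights of the odd integers, counted on an arbitrary set `E`: sets of small
logarithmic density contribute little, sets of logarithmic density zero contribute nothing.
-/

open Filter Topology

namespace Pool.Agent.Results.MP_2b866c_nt.AveragesOverSets

open Finset
open Pool.Agent.U457.PS

/-- `C(m) = (3m+1)/2^e(m)`, `2^e(m)` the largest power of `2` dividing `3m+1` -/
def C (m : ℕ) : ℕ := (3 * m + 1) / 2 ^ padicValNat 2 (3 * m + 1)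

/-- the height `h(m)`, the least `k ≥ 1` with `C^k(m) = 1`, and `⊤ = ∞` if there is none -/
noncomputable def height (m : ℕ) : ℕ∞ := sInf {k : ℕ∞ | ∃ j : ℕ, 1 ≤ j ∧ C^[j] m = 1 ∧ k = j}

/-- the number of the `k < min(h(m), L)` with `C^k(m)` in `E` -/
noncomputable def visits (E : Set ℕ) (m L : ℕ) : ℕ :=
  {k : ℕ | k < L ∧ (k : ℕ∞) < height m ∧ C^[k] m ∈ E}.ncard

open scoped Classical in
/-- `2/N` times the sum of `visits E m L` over the odd `m ≤ N` of finite height -/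
noncomputable def average (E : Set ℕ) (N L : ℕ) : ℝ :=
  2 / (N : ℝ) * ∑ m ∈ (Icc 1 N).filter (fun m => m % 2 = 1 ∧ height m ≠ ⊤), (visits E m L : ℝ)

open scoped Classical in
/-- the sum of the reciprocals of the `e` in `E` with `1 ≤ e ≤ N` -/
noncomputable def recip (E : Set ℕ) (N : ℕ) : ℝ :=
  ∑ e ∈ (Icc 1 N).filter (fun e => e ∈ E), (1 : ℝ) / e

/-- among the odd positive integers, those with the property `P` have the natural density `D` -/
def HasOddDensity (P : ℕ → Prop) (D : ℝ) : Prop :=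
  Tendsto (fun N : ℕ => 2 / (N : ℝ) * ({m : ℕ | m ≤ N ∧ Odd m ∧ P m}.ncard : ℝ)) atTop (𝓝 D)

open Pool.Agent.H499R2.ND in
theorem height_eq {m h : ℕ} (hh : IsHt m h) : height m = h := by
  unfold height
  apply le_antisymm
  · exact sInf_le ⟨h, hh.1, hh.2.1, rfl⟩
  · refine le_sInf ?_
    rintro k ⟨j, hj, hj1, rfl⟩
    have : h ≤ j := by
      by_contra hlt
      exact hh.2.2 j hj (by omega) hj1
    exact_mod_cast this

open Pool.Agent.H499R2.ND in
theorem exists_isHt {m j : ℕ} (hj : 1 ≤ j) (h : C^[j] m = 1) : ∃ h, IsHt m h := by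
  classical
  have hex : ∃ k, 1 ≤ k ∧ C^[k] m = 1 := ⟨j, hj, h⟩
  refine ⟨Nat.find hex, (Nat.find_spec hex).1, (Nat.find_spec hex).2, fun k hk hlt hk1 => ?_⟩
  exact Nat.find_min hex hlt ⟨hk, hk1⟩

open Pool.Agent.H499R2.ND in
theorem height_top {m : ℕ} (hh : ¬ ∃ h, IsHt m h) : height m = ⊤ := by
  unfold height
  have : {k : ℕ∞ | ∃ j : ℕ, 1 ≤ j ∧ C^[j] m = 1 ∧ k = j} = ∅ := by
    rw [Set.eq_empty_iff_forall_notMem]
    rintro k ⟨j, hj, hj1, _⟩
    exact hh (exists_isHt hj hj1)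
  rw [this, sInf_empty]

open Pool.Agent.H499R2.ND in
theorem height_lt_top_iff {m : ℕ} : height m ≠ ⊤ ↔ ∃ h, IsHt m h := by
  constructor
  · intro h
    by_contra hcon
    exact h (height_top hcon)
  · rintro ⟨h, hh⟩
    rw [height_eq hh]
    exact ENat.natCast_ne_top h

open Pool.Agent.H499R2.ND in
theorem odd_density_of {P : ℕ → Prop} {δ : ℝ} (h : Dn (fun m => m % 2 = 1 ∧ P m) (δ / 2)) :
    HasOddDensity P δ := by
  unfold HasOddDensity
  have h1 := h.const_mul 2
  rw [mul_div_cancel₀ δ (by norm_num : (2 : ℝ) ≠ 0)] at h1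
  refine h1.congr fun N => ?_
  have e : {m : ℕ | 1 ≤ m ∧ m ≤ N ∧ m % 2 = 1 ∧ P m} = {m : ℕ | m ≤ N ∧ Odd m ∧ P m} := by
    ext m
    constructor
    · rintro ⟨g1, g2, g3, g4⟩
      exact ⟨g2, Nat.odd_iff.2 g3, g4⟩
    · rintro ⟨g2, g3, g4⟩
      exact ⟨g3.pos, g2, Nat.odd_iff.1 g3, g4⟩
  unfold cnt
  rw [e]
  ring

open Pool.Agent.H499R2.ND in
theorem visits_eq (E : Set ℕ) {m h : ℕ} (hh : IsHt m h) (L : ℕ) : visits E m L = vC E m h L := by
  classical
  unfold visits vC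
  have : {k : ℕ | k < L ∧ (k : ℕ∞) < height m ∧ C^[k] m ∈ E} =
      (((range (min h L)).filter (fun k => Pool.Agent.H363R2.Cm^[k] m ∈ E) : Finset ℕ) : Set ℕ) := by
    ext k
    rw [mem_coe, mem_filter, mem_range, lt_min_iff, Set.mem_ofPred_eq, height_eq hh]
    constructor
    · rintro ⟨h1, h2, h3⟩
      exact ⟨⟨by exact_mod_cast h2, h1⟩, h3⟩
    · rintro ⟨⟨h1, h2⟩, h3⟩
      exact ⟨h2, by exact_mod_cast h1, h3⟩
  rw [this, Set.ncard_coe_finset]

open Pool.Agent.H499R2.ND in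
theorem visits_compl (E : Set ℕ) {m h : ℕ} (hh : IsHt m h) (L : ℕ) :
    (visits E m L : ℝ) + visits Eᶜ m L = fT m L := by
  classical
  rw [visits_eq E hh, visits_eq Eᶜ hh, fT_eq hh]
  unfold vC
  have := card_filter_add_card_filter_not (s := range (min h L)) (fun k => Pool.Agent.H363R2.Cm^[k] m ∈ E)
  rw [card_range] at this
  simp only [Set.mem_compl_iff]
  exact_mod_cast this

/-- (1) For every `B` there is `K` such that for all sets `E` of positive integers of upper logarithmic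
density at most `δ > 0` (in the form: `recip E N ≤ δ log N` for all large `N`) and all `Λ, ε > 0`: the
average of the number of the terms in `E` before `1` (among the first `Λ log N` terms, over the odd
`m ≤ N` of finite height) is at most `(K / (log (2 + 1 / δ))^B + ε) log N` for all large `N`.
(2) The odd integers of finite height have a natural density `D`, `0 < D ≤ 1`, `D = 1` iff all odd
integers have finite height. For every `E` of logarithmic density zero the average for `E` is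
`o(log N)` for all `Λ > 0`, and the average for the complement of `E` is asymptotic to
`D (2 / log (16/9)) log N` for all `Λ > 2 / log (16/9)`. -/
theorem result :
    (∀ B : ℕ, ∃ K : ℝ, 0 < K ∧ ∀ (E : Set ℕ) (δ : ℝ), 0 < δ →
      (∀ᶠ N : ℕ in atTop, recip E N ≤ δ * Real.log N) → ∀ Λ : ℝ, 0 < Λ → ∀ ε : ℝ, 0 < ε →
        ∀ᶠ N : ℕ in atTop, average E N ⌊Λ * Real.log N⌋₊ / Real.log N ≤
          K / (Real.log (2 + 1 / δ)) ^ B + ε) ∧
    ∃ D : ℝ, 0 < D ∧ D ≤ 1 ∧ (D = 1 ↔ ∀ m : ℕ, Odd m → height m ≠ ⊤) ∧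
      HasOddDensity (fun m => height m ≠ ⊤) D ∧
      ∀ E : Set ℕ, Tendsto (fun N : ℕ => recip E N / Real.log N) atTop (𝓝 0) →
        (∀ Λ : ℝ, 0 < Λ →
          Tendsto (fun N : ℕ => average E N ⌊Λ * Real.log N⌋₊ / Real.log N) atTop (𝓝 0)) ∧
        (∀ Λ : ℝ, 2 / Real.log (16 / 9) < Λ →
          Tendsto (fun N : ℕ => average Eᶜ N ⌊Λ * Real.log N⌋₊ / Real.log N) atTop
            (𝓝 (D * (2 / Real.log (16 / 9))))) := by
  classical
  have hunif : ∀ B : ℕ, ∃ K : ℝ, 0 < K ∧ ∀ (E : Set ℕ) (δ : ℝ), 0 < δ →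
      (∀ᶠ N : ℕ in atTop, recip E N ≤ δ * Real.log N) → ∀ Λ : ℝ, 0 < Λ → ∀ ε : ℝ, 0 < ε →
        ∀ᶠ N : ℕ in atTop, average E N ⌊Λ * Real.log N⌋₊ / Real.log N ≤
          K / (Real.log (2 + 1 / δ)) ^ B + ε := by
    intro B
    obtain ⟨K, hK, h⟩ := vC_avg B
    refine ⟨K, hK, ?_⟩
    intro E δ hδ hE Λ hΛ ε hε
    filter_upwards [h E δ hδ hE Λ hΛ ε hε] with N hN
    refine hN _ (fun m => visits E m ⌊Λ * Real.log N⌋₊) ?_
    intro m hm
    rw [mem_filter, mem_Icc] at hm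
    obtain ⟨h, hh⟩ := height_lt_top_iff.1 hm.2.2
    exact ⟨hm.1.1, hm.1.2, Nat.odd_iff.2 hm.2.1, h, hh, visits_eq E hh _⟩
  refine ⟨hunif, ?_⟩
  obtain ⟨D, h0, h1, h2, h3⟩ := Pool.Agent.H499R2.ND.Bas_density
  have hMM : 2 / Real.log (16 / 9) = 1 / Real.log (4 / 3) := by
    have : Real.log (16 / 9) = 2 * Real.log (4 / 3) := by
      rw [show (16 : ℝ) / 9 = (4 / 3) ^ 2 by norm_num, Real.log_pow]; push_cast; ring
    rw [this]
    have : Real.log (4 / 3) ≠ 0 := (Real.log_pos (by norm_num)).ne'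
    field_simp
  rw [hMM]
  have hB : Pool.Agent.H499R2.ND.Dn (fun m => m % 2 = 1 ∧ Pool.Agent.H499R2.ND.Bas m) (D / 2) := by
    have := Pool.Agent.H499R2.ND.inv_prog Pool.Agent.H499R2.ND.Bas_inv h3 (q := 2) (by norm_num) 1
    exact_mod_cast this
  have hodd : ∀ m : ℕ, m % 2 = 1 → (Pool.Agent.H499R2.ND.Bas m ↔ height m ≠ ⊤) := fun m hm => by
    rw [height_lt_top_iff]
    exact Pool.Agent.H499R2.ND.ht_iff (Nat.odd_iff.2 hm)
  have hzero : ∀ E : Set ℕ, Tendsto (fun N : ℕ => recip E N / Real.log N) atTop (𝓝 0) →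
      ∀ Λ : ℝ, 0 < Λ →
        Tendsto (fun N : ℕ => average E N ⌊Λ * Real.log N⌋₊ / Real.log N) atTop (𝓝 0) := by
    intro E hE Λ hΛ
    obtain ⟨K, hK, h⟩ := hunif 1
    rw [Metric.tendsto_atTop]
    intro ε hε
    obtain ⟨δ, hδ, hδ2⟩ : ∃ δ : ℝ, 0 < δ ∧ K / (Real.log (2 + 1 / δ)) ^ 1 ≤ ε / 3 := by
      refine ⟨1 / Real.exp (K / (ε / 3)), by positivity, ?_⟩
      rw [one_div_one_div, pow_one]
      have h1 : K / (ε / 3) ≤ Real.log (2 + Real.exp (K / (ε / 3))) := by
        rw [Real.le_log_iff_exp_le (by positivity)]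
        linarith
      have h2 : 0 < K / (ε / 3) := by positivity
      rw [div_le_iff₀ (by linarith)]
      rw [div_le_iff₀ (by positivity)] at h1
      linarith
    have hE' : ∀ᶠ N : ℕ in atTop, recip E N ≤ δ * Real.log N := by
      filter_upwards [hE.eventually (gt_mem_nhds hδ), log_ge 1] with N h1 h2
      rw [div_lt_iff₀ (by linarith)] at h1
      exact h1.le
    have h4 := (h E δ hδ hE' Λ hΛ (ε / 3) (by positivity)).and (log_ge 1)
    obtain ⟨N₀, hN₀⟩ := Filter.eventually_atTop.1 h4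
    refine ⟨N₀, fun N hN => ?_⟩
    obtain ⟨h5, h6⟩ := hN₀ N hN
    have h7 : 0 ≤ average E N ⌊Λ * Real.log N⌋₊ := by
      unfold average
      exact mul_nonneg (by positivity) (sum_nonneg fun m _ => Nat.cast_nonneg _)
    have h8 : (0 : ℝ) < Real.log N := by linarith
    rw [Real.dist_eq, sub_zero, abs_of_nonneg (by positivity)]
    linarith
  refine ⟨D, h0, h1, ?_, ?_, ?_⟩
  · rw [h2, Pool.Agent.H499R2.ND.bas_all_iff]
    exact forall_congr' fun m => forall_congr' fun _ => height_lt_top_iff.symm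
  · apply odd_density_of
    refine Pool.Agent.H499R2.ND.dn_congr hB (E := fun _ => False) ?_ fun n _ _ => ?_
    · exact Pool.Agent.H499R2.ND.zd_mono (Pool.Agent.H499R2.ND.zd_bdd 0)
        fun n _ h => absurd h not_false
    · exact and_congr_right fun h => hodd n h
  · intro E hE
    refine ⟨hzero E hE, ?_⟩
    intro Λ hΛ
    have hc0 : 0 < 1 / Real.log (4 / 3) := one_div_pos.2 (Real.log_pos (by norm_num))
    have h4 := (fin_avg h3 hΛ).sub (hzero E hE Λ (hc0.trans hΛ))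
    rw [sub_zero] at h4
    refine h4.congr fun N => ?_
    have e1 : (Icc 1 N).filter (fun m => m % 2 = 1 ∧ ∃ h, Pool.Agent.H499R2.ND.IsHt m h) =
        (Icc 1 N).filter (fun m => m % 2 = 1 ∧ height m ≠ ⊤) := by
      apply filter_congr
      intro m _
      exact and_congr_right fun _ => height_lt_top_iff.symm
    have e2 : ∑ m ∈ (Icc 1 N).filter (fun m => m % 2 = 1 ∧ ∃ h, Pool.Agent.H499R2.ND.IsHt m h),
        (fT m ⌊Λ * Real.log N⌋₊ : ℝ) =
        ∑ m ∈ (Icc 1 N).filter (fun m => m % 2 = 1 ∧ height m ≠ ⊤),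
          ((visits E m ⌊Λ * Real.log N⌋₊ : ℝ) + visits Eᶜ m ⌊Λ * Real.log N⌋₊) := by
      rw [e1]
      apply sum_congr rfl
      intro m hm
      rw [mem_filter] at hm
      obtain ⟨h, hh⟩ := height_lt_top_iff.1 hm.2.2
      exact (visits_compl E hh _).symm
    rw [e2, sum_add_distrib]
    unfold average
    ring

end Pool.Agent.Results.MP_2b866c_nt.AveragesOverSets
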