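import Pool.Agent.U596.KR10
import Pool.Agent.Results.MP_2b866c_nt.HeightsInSemigroups

set_option autoImplicit false

/-!
# The heights of the products of exactly `k` primes and their average order

For `k ≥ 2` the heights of the integers with exactly `k` prime factors, all of them greater than a small
power of the size, have the same normal law, the same frequency of infinite heights and the same
truncated average order as the heights of all odd integers, uniformly for the products of `k` primes from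
an arbitrary set of primes, in every residue class. So all heights are finite if and only if the
(truncated) average order of the heights of the products of exactly two primes is the expected one.

A number of prime factors prescribed exactly is out of reach of the sieve (parity problem). The proof
estimates bilinear sums `∑ ∑ α p β q F (c p q)` over primes `p`, `q` for functions `F` which are constant on
coalescing trajectories above a large fixed height.
-/

namespace Pool.Agent.Results.MP_2b866c_nt.HeightsExactlyKPrimes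

open Filter Topology Finset
open ArithmeticFunction (cardFactors)

/-- `C(m) = (3m+1)/2^e(m)`, `2^e(m)` the largest power of `2` dividing `3m+1` -/
def C (m : ℕ) : ℕ := (3 * m + 1) / 2 ^ padicValNat 2 (3 * m + 1)

/-- the height `h(m)`, the least `k ≥ 1` with `C^k(m) = 1`, and `⊤ = ∞` if there is none -/
noncomputable def height (m : ℕ) : ℕ∞ := sInf {k : ℕ∞ | ∃ j : ℕ, 1 ≤ j ∧ C^[j] m = 1 ∧ k = j}

/-- `min(h(m), L)`, a natural number -/
noncomputable def truncHeight (m L : ℕ) : ℕ := (min (height m) (L : ℕ∞)).toNat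

/-- among the odd positive integers, those with the property `P` have the natural density `δ` -/
def HasOddDensity (P : ℕ → Prop) (δ : ℝ) : Prop :=
  Tendsto (fun N : ℕ => 2 / (N : ℝ) * ({m : ℕ | m ≤ N ∧ Odd m ∧ P m}.ncard : ℝ)) atTop (𝓝 δ)

/-- `2 / log (16/9) * log m + x * log 2 * √(2 log m / (log (4/3))^3)` -/
noncomputable def bound (x : ℝ) (m : ℕ) : ℝ :=
  2 / Real.log (16 / 9) * Real.log m
    + x * (Real.log 2 * Real.sqrt (2 * Real.log m / Real.log (4 / 3) ^ 3))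

/-- The distribution function of the standard normal law. -/
noncomputable def Phi (x : ℝ) : ℝ :=
  ProbabilityTheory.cdf (ProbabilityTheory.gaussianReal 0 1) x

/-- The height of `m` is finite, at most `bound x m` and congruent to `b` modulo `q`. -/
def Level (q : ℕ) (b : ℤ) (x : ℝ) (m : ℕ) : Prop :=
  ∃ h : ℕ, height m = h ∧ (h : ℝ) ≤ bound x m ∧ (h : ℤ) ≡ b [ZMOD q]

/-- The integers up to `N` with exactly `k` prime factors (with multiplicity), all of them greater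
than `N ^ θ`. -/
def E (k : ℕ) (θ : ℝ) (N : ℕ) : Set ℕ :=
  {n | 1 ≤ n ∧ n ≤ N ∧ cardFactors n = k ∧ ∀ p : ℕ, p.Prime → p ∣ n → (N : ℝ) ^ θ < p}

/-- The integers congruent to `r` modulo `Q` all of whose prime factors are in `S`. -/
def W (S : Set ℕ) (Q r : ℕ) : Set ℕ := {n | n % Q = r % Q ∧ ∀ p : ℕ, p.Prime → p ∣ n → p ∈ S}

/-- THE FREQUENCIES of the pairs `(P, l)` in the family `F`: for all `k ≥ 2`, `Q ≥ 1` and `ε > 0`, all small
enough `θ > 0` and all `N ≥ N₀ (k, Q, ε, θ)`, uniformly for all pairs `(P, l)` in `F`, all sets `S` of primes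
and all `r`: among the integers `n ≤ N` with exactly `k` prime factors, all greater than `N ^ θ` and
all in `S`, and `n ≡ r` modulo `Q`, the number of those with the property `P` is `l` times their
number, up to `ε` times the number of all `n ≤ N` with exactly `k` prime factors, all greater than
`N ^ θ`. -/
def Frequencies (F : Set ((ℕ → Prop) × ℝ)) : Prop := ∀ k Q : ℕ, 2 ≤ k → 1 ≤ Q → ∀ ε : ℝ, 0 < ε →
  ∃ θ₀ : ℝ, 0 < θ₀ ∧ ∀ θ : ℝ, 0 < θ → θ ≤ θ₀ → ∃ N₀ : ℕ, ∀ N : ℕ, N₀ ≤ N →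
    ∀ (S : Set ℕ) (r : ℕ), ∀ P ∈ F,
    |((E k θ N ∩ W S Q r ∩ {n | P.1 n}).ncard : ℝ) - P.2 * (E k θ N ∩ W S Q r).ncard| ≤
      ε * (E k θ N).ncard

open scoped Classical in
/-- `∑ f m`, over the `m ≤ N` with exactly `k` prime factors, all greater than `N ^ θ` and in `S`, and
`m ≡ r` modulo `Q` -/
noncomputable def Sum (k : ℕ) (θ : ℝ) (N : ℕ) (S : Set ℕ) (Q r : ℕ) (f : ℕ → ℝ) : ℝ :=
  ∑ m ∈ (Icc 1 N).filter (fun m => m ∈ E k θ N ∩ W S Q r), f m

/-- THE AVERAGE of `G N m` is `V`, in the same sense as in `Frequencies`. -/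
def Average (G : ℕ → ℕ → ℝ) (V : ℝ) : Prop := ∀ k Q : ℕ, 2 ≤ k → 1 ≤ Q → ∀ ε : ℝ, 0 < ε →
  ∃ θ₀ : ℝ, 0 < θ₀ ∧ ∀ θ : ℝ, 0 < θ → θ ≤ θ₀ → ∃ N₀ : ℕ, ∀ N : ℕ, N₀ ≤ N → ∀ (S : Set ℕ) (r : ℕ),
    |Sum k θ N S Q r (G N) - V * (E k θ N ∩ W S Q r).ncard| ≤ ε * (E k θ N).ncard

open Pool.Agent.U596.KF in
theorem freq_iff (F : Set ((ℕ → Prop) × ℝ)) : Frequencies F ↔ KFr F := Iff.rfl

open Pool.Agent.U596.KF in
/-- the change of the events at small and at even integers -/
theorem freq_ext {F F' : Set ((ℕ → Prop) × ℝ)} (n1 : ℕ) (h : Frequencies F)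
    (hF : ∀ P' ∈ F', ∃ P ∈ F, P'.2 = P.2 ∧ ∀ n, n1 ≤ n → Odd n → (P'.1 n ↔ P.1 n)) : Frequencies F' := by
  intro k Q hk hQ ε hε
  obtain ⟨θ0, h1, h2⟩ := h k Q hk hQ ε hε
  refine ⟨θ0, h1, fun θ a1 a2 => ?_⟩
  obtain ⟨N0, h3⟩ := h2 θ a1 a2
  obtain ⟨N2, h7⟩ := E_large hk a1 n1
  have hev2 : ∀ᶠ N : ℕ in Filter.atTop, (2 : ℝ) ≤ (N : ℝ) ^ θ := Pool.Agent.U596.TP.ev_pow a1 _
  obtain ⟨N5, c6⟩ := Filter.eventually_atTop.1 hev2
  refine ⟨N0 + N2 + N5, fun N hN S r P' hP' => ?_⟩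
  obtain ⟨P, hP, e1, e2⟩ := hF P' hP'
  have h8 := h3 N (by omega) S r P hP
  have h9 := h7 N (by omega)
  have d6 := c6 N (by omega)
  have hodd : ∀ n ∈ E k θ N, Odd n := by
    intro n hn
    rw [← Nat.not_even_iff_odd]
    intro he
    have h7 := hn.2.2.2 2 Nat.prime_two he.two_dvd
    push_cast at h7
    linarith
  have e3 : E k θ N ∩ W S Q r ∩ {n | P'.1 n} = E k θ N ∩ W S Q r ∩ {n | P.1 n} := by
    ext n
    simp only [Set.mem_inter_iff, Set.mem_setOf_eq]
    constructor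
    · rintro ⟨⟨g1, g2⟩, g3⟩
      exact ⟨⟨g1, g2⟩, (e2 n (h9 n g1) (hodd n g1)).1 g3⟩
    · rintro ⟨⟨g1, g2⟩, g3⟩
      exact ⟨⟨g1, g2⟩, (e2 n (h9 n g1) (hodd n g1)).2 g3⟩
  rw [e3, e1]
  exact h8

open Pool.Agent.Results.MP_2b866c_nt.HeightsInSemigroups in
/-- the truncated averages -/
theorem avg_trunc {δ c0 Λ : ℝ} (hc0 : 0 < c0) (hΛ : c0 < Λ)
    (h1 : ∀ η : ℝ, 0 < η → Frequencies {((fun m : ℕ => Odd m ∧ ∃ h : ℕ,
      HeightsExactlyKPrimes.height m = h ∧ |(h : ℝ) - c0 * Real.log m| ≤ η * Real.log m), δ)})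
    (h2 : Frequencies {((fun m : ℕ => HeightsExactlyKPrimes.height m = ⊤), 1 - δ)}) :
    Average (fun N m => (HeightsExactlyKPrimes.truncHeight m ⌊Λ * Real.log N⌋₊ : ℝ) / Real.log N)
      (δ * c0 + (1 - δ) * Λ) := by
  have hΛ0 : 0 < Λ := hc0.trans hΛ
  refine Pool.Agent.U596.KF.avgK (B := Λ) (v1 := c0) (v2 := Λ) hΛ0 (fun N m => ?_) (by rw [abs_of_pos hc0]; exact hΛ.le)
    (by rw [abs_of_pos hΛ0]) (fun η hη => ?_)
  · have hL : 0 ≤ Real.log N := Real.log_natCast_nonneg N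
    rw [abs_of_nonneg (by positivity)]
    rcases hL.eq_or_lt with h | h
    · rw [← h, div_zero]; exact hΛ0.le
    · rw [div_le_iff₀ h]
      calc ((HeightsExactlyKPrimes.truncHeight m ⌊Λ * Real.log N⌋₊ : ℕ) : ℝ) ≤ (⌊Λ * Real.log N⌋₊ : ℝ) := by
            exact_mod_cast trunc_le m ⌊Λ * Real.log N⌋₊
        _ ≤ Λ * Real.log N := Nat.floor_le (by positivity)
  · obtain ⟨η0, hη0⟩ : ∃ η0 : ℝ, η0 = min (η / 2) ((Λ - c0) / 2) := ⟨_, rfl⟩
    have hη00 : 0 < η0 := by rw [hη0]; exact lt_min (by positivity) (by linarith)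
    have hη01 : η0 ≤ η / 2 := by rw [hη0]; exact min_le_left _ _
    have hη02 : η0 ≤ (Λ - c0) / 2 := by rw [hη0]; exact min_le_right _ _
    refine ⟨_, _, h1 η0 hη00, h2, fun n hn hn2 => ?_, fun K hK => ?_⟩
    · obtain ⟨_, h, hh, _⟩ := hn
      rw [hh] at hn2
      exact absurd hn2 (ENat.natCast_ne_top h)
    have tl : Tendsto (fun N : ℕ => Real.log N) atTop atTop :=
      Real.tendsto_log_atTop.comp tendsto_natCast_atTop_atTop
    have hev := (tl.eventually_ge_atTop (2 * c0 * Real.log K / η)).and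
      (tl.eventually_ge_atTop (max 3 (max (2 / (Λ - c0)) (1 / η))))
    obtain ⟨n0, hn0⟩ := eventually_atTop.1 hev
    refine ⟨n0 + 2, fun N hN n hn1 hn2 hn3 ho => ?_⟩
    obtain ⟨g1, g2⟩ := hn0 N (by omega)
    simp only [max_le_iff] at g1 g2
    obtain ⟨g3, g4, g5⟩ := g2
    obtain ⟨L, hL⟩ : ∃ L : ℝ, L = Real.log N := ⟨_, rfl⟩
    rw [← hL] at g1 g3 g4 g5
    show (_ → |(HeightsExactlyKPrimes.truncHeight n ⌊Λ * Real.log N⌋₊ : ℝ) / Real.log N - c0| ≤ η) ∧
      (_ → |(HeightsExactlyKPrimes.truncHeight n ⌊Λ * Real.log N⌋₊ : ℝ) / Real.log N - Λ| ≤ η)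
    rw [← hL]
    have hL0 : 0 < L := by linarith
    have hN0 : (0 : ℝ) < N := by exact_mod_cast (by omega : 0 < N)
    have hK0 : (0 : ℝ) < K := by exact_mod_cast hK
    rw [div_le_iff₀ (by linarith)] at g4
    rw [div_le_iff₀ hη] at g5 g1
    have hfl := Nat.lt_floor_add_one (Λ * L)
    have hfl2 : (⌊Λ * L⌋₊ : ℝ) ≤ Λ * L := Nat.floor_le (by positivity)
    have hn0' : (0 : ℝ) < n := by exact_mod_cast (by omega : 0 < n)
    have hlogn : Real.log n ≤ L := by rw [hL]; exact Real.log_le_log hn0' (by exact_mod_cast hn2)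
    have hlogn2 : L - Real.log K ≤ Real.log n := by
      have h3 : (N : ℝ) / K ≤ n := by
        have h4 : N < K * (n + 0) + 0 ∨ N < K * n := by
          right
          have h5 : N / K + 1 ≤ n := hn1
          have h6 := Nat.lt_mul_div_succ N (show 0 < K by omega)
          exact lt_of_lt_of_le h6 (Nat.mul_le_mul_left _ h5)
        have h5 : N < K * n := by
          rcases h4 with h4 | h4
          · simpa using h4
          · exact h4
        rw [div_le_iff₀ hK0]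
        have h6 : (N : ℝ) < K * n := by exact_mod_cast h5
        linarith
      have h4 := Real.log_le_log (by positivity) h3
      rw [Real.log_div hN0.ne' hK0.ne', ← hL] at h4
      exact h4
    have hlogn0 : 0 ≤ Real.log n := Real.log_natCast_nonneg n
    constructor
    · rintro ⟨_, h, hh, hb⟩
      obtain ⟨b1, b2⟩ := abs_le.1 hb
      have c1 : η0 * Real.log n ≤ η0 * L := mul_le_mul_of_nonneg_left hlogn hη00.le
      have c2 : c0 * Real.log n ≤ c0 * L := mul_le_mul_of_nonneg_left hlogn hc0.le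
      have c3 : η0 * L ≤ η / 2 * L := mul_le_mul_of_nonneg_right hη01 hL0.le
      have c4 : η0 * L ≤ (Λ - c0) / 2 * L := mul_le_mul_of_nonneg_right hη02 hL0.le
      have c5 : c0 * (L - Real.log K) ≤ c0 * Real.log n := mul_le_mul_of_nonneg_left hlogn2 hc0.le
      have c6 : (h : ℝ) ≤ ⌊Λ * L⌋₊ := by
        have c7 : (Λ - c0) / 2 * L = (Λ * L - c0 * L) / 2 := by ring
        have c8 : L * (Λ - c0) = Λ * L - c0 * L := by ring
        rw [c8] at g4
        linarith
      have e0 : HeightsExactlyKPrimes.truncHeight n ⌊Λ * L⌋₊ = min h ⌊Λ * L⌋₊ := trunc_of hh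
      rw [e0, min_eq_left (by exact_mod_cast c6)]
      have e : (h : ℝ) / L - c0 = ((h : ℝ) - c0 * L) / L := by field_simp
      rw [e, abs_div, abs_of_pos hL0, div_le_iff₀ hL0, abs_le]
      constructor <;> linarith
    · intro hh
      have e0 : HeightsExactlyKPrimes.truncHeight n ⌊Λ * L⌋₊ = ⌊Λ * L⌋₊ := trunc_top hh
      rw [e0]
      have e : (⌊Λ * L⌋₊ : ℝ) / L - Λ = ((⌊Λ * L⌋₊ : ℝ) - Λ * L) / L := by field_simp
      rw [e, abs_div, abs_of_pos hL0, div_le_iff₀ hL0, abs_le]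
      constructor <;> linarith

open Pool.Agent.Results.MP_2b866c_nt.HeightsInSemigroups in
/-- THE HEIGHTS OF THE PRODUCTS OF EXACTLY `k` PRIMES.
Let `δ > 0` be the natural density of the finite heights among the odd positive integers (`δ = 1` if and
only if all heights are finite; this is known). In the sense of `Frequencies` and `Average` (along the
integers `m ≤ N` with exactly `k ≥ 2` prime factors, all greater than `N ^ θ`, uniformly for the products of
`k` primes from an arbitrary set of primes, in every residue class):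
(1) the `m` with infinite height have frequency `1 - δ`;
(2) the `m` with `h(m) ≤ 2 / log (16/9) log m + x log 2 √(2 log m / (log (4/3))^3)` and `h(m) ≡ b` modulo
`q` have frequency `δ Φ(x) / q`, uniformly in the real number `x` and in `b`;
(3) for every `η > 0` the `m` with `|h(m) - 2 / log (16/9) log m| ≤ η log m` have frequency `δ`;
(4) for every `Λ > 2 / log (16/9)` the average of `min(h(m), ⌊Λ log N⌋)` is
`(δ 2 / log (16/9) + (1 - δ) Λ) log N`.
(5) The number of the `m ≤ N` with exactly `k` prime factors, all greater than `N ^ θ`, is at least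
`c(k) N / log N` for `N ≥ N₀ (k, θ)`, for all small enough `θ > 0`.
(6) Let `k ≥ 2` and `Λ > 2 / log (16/9)`. All heights are finite if and only if for every `ε > 0` there are
arbitrarily small `θ > 0` such that for infinitely many `N` the average of `min(h(m), ⌊Λ log N⌋)`, over the
`m ≤ N` with exactly `k` prime factors, all greater than `N ^ θ`, is at most `(2 / log (16/9) + ε) log N`. -/
theorem result : ∃ δ : ℝ, 0 < δ ∧ δ ≤ 1 ∧ (δ = 1 ↔ ∀ m : ℕ, Odd m → HeightsExactlyKPrimes.height m ≠ ⊤) ∧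
    HeightsExactlyKPrimes.HasOddDensity (fun m => HeightsExactlyKPrimes.height m ≠ ⊤) δ ∧
    Frequencies {((fun m => HeightsExactlyKPrimes.height m = ⊤), 1 - δ)} ∧
    (∀ q : ℕ, 1 ≤ q → Frequencies {P | ∃ (b : ℤ) (x : ℝ), P = (HeightsExactlyKPrimes.Level q b x,
      δ * HeightsExactlyKPrimes.Phi x / q)}) ∧
    (∀ η : ℝ, 0 < η → Frequencies {((fun m : ℕ => ∃ h : ℕ, HeightsExactlyKPrimes.height m = h ∧
      |(h : ℝ) - 2 / Real.log (16 / 9) * Real.log m| ≤ η * Real.log m), δ)}) ∧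
    (∀ Λ : ℝ, 2 / Real.log (16 / 9) < Λ →
      Average (fun N m => (HeightsExactlyKPrimes.truncHeight m ⌊Λ * Real.log N⌋₊ : ℝ) / Real.log N)
        (δ * (2 / Real.log (16 / 9)) + (1 - δ) * Λ)) ∧
    ∀ k : ℕ, 2 ≤ k →
      (∃ c : ℝ, 0 < c ∧ ∃ θ₀ : ℝ, 0 < θ₀ ∧ ∀ θ : ℝ, 0 < θ → θ ≤ θ₀ → ∃ N₀ : ℕ, ∀ N : ℕ, N₀ ≤ N →
        c * (N / Real.log N) ≤ (E k θ N).ncard) ∧
      ∀ Λ : ℝ, 2 / Real.log (16 / 9) < Λ →
        ((∀ m : ℕ, Odd m → HeightsExactlyKPrimes.height m ≠ ⊤) ↔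
          ∀ ε : ℝ, 0 < ε → ∀ θ₁ : ℝ, 0 < θ₁ → ∃ θ : ℝ, 0 < θ ∧ θ ≤ θ₁ ∧ ∃ᶠ N : ℕ in atTop,
            Sum k θ N Set.univ 1 0 (fun m => (HeightsExactlyKPrimes.truncHeight m ⌊Λ * Real.log N⌋₊ : ℝ)) ≤
              (2 / Real.log (16 / 9) + ε) * Real.log N * (E k θ N).ncard) := by
  obtain ⟨δ, h0, h1, h2, h3, h4, h5, h6⟩ := Pool.Agent.U596.KF.lawsK
  have hBas : ∀ m : ℕ, Odd m → (Pool.Agent.H499R2.ND.Bas m ↔ HeightsExactlyKPrimes.height m ≠ ⊤) := fun m hm => by
    refine Iff.trans ?_ (height_lt_top_iff (m := m)).symm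
    exact Pool.Agent.H499R2.ND.ht_iff hm
  have hfin : ∀ m : ℕ, Odd m → ((∃ k, Pool.Agent.H499R2.HL.H k m) ↔ HeightsExactlyKPrimes.height m ≠ ⊤) := fun m hm => by
    rw [← hBas m hm]
    exact (Pool.Agent.Y964.LW.hit_iff m).symm
  have hδiff : δ = 1 ↔ ∀ m : ℕ, Odd m → HeightsExactlyKPrimes.height m ≠ ⊤ := by
    rw [h2]
    refine Iff.trans Pool.Agent.H499R2.ND.bas_all_iff ?_
    exact forall_congr' fun m => forall_congr' fun _ => (height_lt_top_iff (m := m)).symm
  have hinf : Frequencies {((fun m => HeightsExactlyKPrimes.height m = ⊤), 1 - δ)} := by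
    refine freq_ext 0 ((freq_iff _).2 (Pool.Agent.U596.KF.KFr_not h4)) ?_
    rintro P' hP'
    rw [Set.mem_singleton_iff] at hP'
    subst hP'
    refine ⟨_, rfl, rfl, fun n hn ho => ?_⟩
    simp only
    rw [hfin n ho, not_not]
  have hll : ∀ η : ℝ, 0 < η → Frequencies {((fun m : ℕ => Odd m ∧ ∃ h : ℕ, HeightsExactlyKPrimes.height m = h ∧
      |(h : ℝ) - 2 / Real.log (16 / 9) * Real.log m| ≤ η * Real.log m), δ)} := by
    intro η hη
    refine freq_ext 2 ((freq_iff _).2 (h6 η hη).2.2) ?_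
    rintro P' hP'
    rw [Set.mem_singleton_iff] at hP'
    subst hP'
    refine ⟨_, rfl, rfl, fun n hn ho => ?_⟩
    simp only
    rw [two_log]
    have h7 := ht_trans (R := fun h => |(h : ℝ) - 1 / Real.log (4 / 3) * Real.log n| ≤ η * Real.log n) hn ho
    exact ⟨fun h8 => h7.2 h8.2, fun h8 => ⟨ho, h7.1 h8⟩⟩
  have hav : ∀ Λ : ℝ, 2 / Real.log (16 / 9) < Λ →
      Average (fun N m => (HeightsExactlyKPrimes.truncHeight m ⌊Λ * Real.log N⌋₊ : ℝ) / Real.log N)
        (δ * (2 / Real.log (16 / 9)) + (1 - δ) * Λ) := fun Λ hΛ =>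
    avg_trunc (div_pos (by norm_num) (Real.log_pos (by norm_num))) hΛ hll hinf
  refine ⟨δ, h0, h1, hδiff, ?_, hinf, fun q hq => ?_, fun η hη => ?_, hav, fun k hk =>
    ⟨Pool.Agent.U596.KF.E_low hk, fun Λ hΛ => ⟨fun hall ε hε θ₁ hθ₁ => ?_, fun hcr => ?_⟩⟩⟩
  · have h7 : Pool.Agent.H499R2.ND.Dn (fun m => m % 2 = 1 ∧ Pool.Agent.H499R2.ND.Bas m) (δ / 2) := by
      have := Pool.Agent.H499R2.ND.inv_prog Pool.Agent.H499R2.ND.Bas_inv h3 (q := 2) (by norm_num) 1
      exact_mod_cast this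
    exact odd_density_of (Pool.Agent.H499R2.LT.Dn_iff (fun n _ => and_congr_right fun h => hBas n (Nat.odd_iff.2 h)) h7)
  · refine freq_ext 2 ((freq_iff _).2 (h5 q hq).2.2) ?_
    rintro P' ⟨b, x, rfl⟩
    refine ⟨_, ⟨b, x, rfl⟩, ?_, fun n hn ho => ?_⟩
    · unfold HeightsExactlyKPrimes.Phi
      simp only
      rw [← Pool.Agent.H499R2.ND.phi_cdf]
      ring
    · have h7 := ht_trans (R := fun h => (h : ℝ) ≤ HeightsExactlyKPrimes.bound x n ∧ (h : ℤ) ≡ b [ZMOD q]) hn ho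
      refine Iff.symm (Iff.trans ?_ h7)
      have e : HeightsExactlyKPrimes.bound x n = Pool.Agent.H499R2.HL.bo x (Real.log n) :=
        Pool.Agent.Results.MP_2b866c_nt.HeightsInSemigroups.bound_eq x n
      simp only [e]
  · refine freq_ext 0 (hll η hη) ?_
    rintro P' hP'
    rw [Set.mem_singleton_iff] at hP'
    subst hP'
    refine ⟨_, rfl, rfl, fun n hn ho => ?_⟩
    exact ⟨fun h7 => ⟨ho, h7⟩, fun h7 => h7.2⟩
  · have hδ1 : δ = 1 := hδiff.2 hall
    obtain ⟨θ0, hθ0, h7⟩ := hav Λ hΛ k 1 hk le_rfl ε hε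
    refine ⟨min θ0 θ₁, lt_min hθ0 hθ₁, min_le_right _ _, ?_⟩
    obtain ⟨N0, h8⟩ := h7 (min θ0 θ₁) (lt_min hθ0 hθ₁) (min_le_left _ _)
    generalize min θ0 θ₁ = θ at h8 ⊢
    apply Eventually.frequently
    filter_upwards [eventually_ge_atTop N0, eventually_ge_atTop 3] with N hN hN3
    have h9 := h8 N hN Set.univ 0
    have e1 : E k θ N ∩ W Set.univ 1 0 = E k θ N := by
      ext n
      simp only [Set.mem_inter_iff, W, Set.mem_setOf_eq, Set.mem_univ, implies_true, and_true, Nat.mod_one]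
    rw [e1, hδ1, abs_le] at h9
    have hL : 0 < Real.log N := Real.log_pos (by exact_mod_cast (by omega : 1 < N))
    have e2 : Sum k θ N Set.univ 1 0 (fun m => (HeightsExactlyKPrimes.truncHeight m ⌊Λ * Real.log N⌋₊ : ℝ)) =
        Sum k θ N Set.univ 1 0 (fun m => (HeightsExactlyKPrimes.truncHeight m ⌊Λ * Real.log N⌋₊ : ℝ) / Real.log N) *
          Real.log N := by
      unfold Sum
      rw [Finset.sum_mul]
      apply Finset.sum_congr rfl
      intro m _
      field_simp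
    rw [e2]
    have h10 := h9.2
    calc _ ≤ ((2 / Real.log (16 / 9) + ε) * (E k θ N).ncard) * Real.log N := by
          apply mul_le_mul_of_nonneg_right _ hL.le
          linarith
      _ = _ := by ring
  · rw [← hδiff]
    by_contra hne
    have hδ : 0 < 1 - δ := by
      rcases h1.lt_or_eq with h | h
      · linarith
      · exact absurd h hne
    obtain ⟨c0, hc0⟩ : ∃ c0 : ℝ, c0 = 2 / Real.log (16 / 9) := ⟨_, rfl⟩
    obtain ⟨ε, hε⟩ : ∃ ε : ℝ, ε = (1 - δ) * (Λ - c0) / 4 := ⟨_, rfl⟩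
    have hΛ' : 0 < Λ - c0 := by rw [hc0]; linarith
    have hε0 : 0 < ε := by rw [hε]; positivity
    obtain ⟨θ0, hθ0, h7⟩ := hav Λ hΛ k 1 hk le_rfl ε hε0
    obtain ⟨c, hc, θ1, hθ1, hlow⟩ := Pool.Agent.U596.KF.E_low hk
    obtain ⟨θ, b1, b2, hfr⟩ := hcr ε hε0 (min θ0 θ1) (lt_min hθ0 hθ1)
    obtain ⟨N0, h8⟩ := h7 θ b1 (b2.trans (min_le_left _ _))
    obtain ⟨N1, h9⟩ := hlow θ b1 (b2.trans (min_le_right _ _))
    obtain ⟨N, g1, ⟨g2, g3⟩, g4⟩ := (hfr.and_eventually (((eventually_ge_atTop N0).and (eventually_ge_atTop N1)).and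
      (eventually_ge_atTop 3))).exists
    have g5 := h8 N g2 Set.univ 0
    have g6 := h9 N g3
    have e1 : E k θ N ∩ W Set.univ 1 0 = E k θ N := by
      ext n
      simp only [Set.mem_inter_iff, W, Set.mem_setOf_eq, Set.mem_univ, implies_true, and_true, Nat.mod_one]
    rw [e1, ← hc0, abs_le] at g5
    rw [← hc0] at g1
    have hN3 : (3 : ℝ) ≤ N := by exact_mod_cast g4
    have hL : 0 < Real.log N := Real.log_pos (by linarith)
    have g7 : 0 < c * (N / Real.log N) := by positivity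
    have g8 : (0 : ℝ) < (E k θ N).ncard := lt_of_lt_of_le g7 g6
    have e2 : Sum k θ N Set.univ 1 0 (fun m => (HeightsExactlyKPrimes.truncHeight m ⌊Λ * Real.log N⌋₊ : ℝ)) =
        Sum k θ N Set.univ 1 0 (fun m => (HeightsExactlyKPrimes.truncHeight m ⌊Λ * Real.log N⌋₊ : ℝ) / Real.log N) *
          Real.log N := by
      unfold Sum
      rw [Finset.sum_mul]
      apply Finset.sum_congr rfl
      intro m _
      field_simp
    rw [e2] at g1
    have g9 : Sum k θ N Set.univ 1 0 (fun m => (HeightsExactlyKPrimes.truncHeight m ⌊Λ * Real.log N⌋₊ : ℝ) / Real.log N) ≤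
        (c0 + ε) * (E k θ N).ncard := by
      have g10 : (c0 + ε) * Real.log N * (E k θ N).ncard = ((c0 + ε) * (E k θ N).ncard) * Real.log N := by ring
      rw [g10] at g1
      exact le_of_mul_le_mul_right g1 hL
    have g11 := g5.1
    have g12 : δ * c0 + (1 - δ) * Λ = c0 + 4 * ε := by rw [hε]; ring
    rw [g12] at g11
    have g13 : 0 < ε * (E k θ N).ncard := mul_pos hε0 g8
    linarith

end Pool.Agent.Results.MP_2b866c_nt.HeightsExactlyKPrimes
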