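import Pool.Agent.U923.CZ.Gen

/-!
POLYNOMIALS IN THE HEIGHTS MODULO ONE.

Author: helper923. Starts from the local limit law of the heights (starting library, Pool/Agent/R468/LL,
helper468) and the inverse theorem for Weyl sums (Pool/Agent/H373R2/NB). New here (Pool/Agent/U923/CZ): the
transfer principle for the local limit laws with a periodic factor, uniformly in the size of the height, and
polynomial phases over the intervals `[y, y + H)`, `H ≥ ε √y`.
-/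

set_option autoImplicit false

namespace Pool.Agent.Results.MP_2b866c_nt.HeightsModuloOne

open Filter Topology Polynomial

/-- `C(m) = (3m+1)/2^e(m)`, `2^e(m)` the largest power of `2` dividing `3m+1` -/
def C (m : ℕ) : ℕ := (3 * m + 1) / 2 ^ padicValNat 2 (3 * m + 1)

/-- the height of `m` is finite -/
def Finite (m : ℕ) : Prop := ∃ k : ℕ, 1 ≤ k ∧ C^[k] m = 1

/-- the height of `m`: the least `k ≥ 1` with `C^k(m) = 1` (used only when it is finite) -/
noncomputable def h (m : ℕ) : ℕ := sInf {k : ℕ | 1 ≤ k ∧ C^[k] m = 1}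

/-- among the odd positive integers, those with the property `P` have the natural density `c` -/
def HasOddDensity (P : ℕ → Prop) (c : ℝ) : Prop :=
  Tendsto (fun M : ℕ => 2 / (M : ℝ) * ({m : ℕ | m ≤ M ∧ Odd m ∧ P m}.ncard : ℝ)) atTop (𝓝 c)

open Classical in
/-- the odd integers `m ≤ x` of finite height -/
noncomputable def S (x : ℝ) : Finset ℕ := (Finset.Icc 1 ⌊x⌋₊).filter fun m => Odd m ∧ Finite m

theorem mem_S {x : ℝ} {m : ℕ} : m ∈ S x ↔ (m : ℝ) ≤ x ∧ Odd m ∧ Finite m := by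
  classical
  unfold S
  rw [Finset.mem_filter, Finset.mem_Icc]
  constructor
  · rintro ⟨⟨h1, h2⟩, h3⟩
    exact ⟨(Nat.le_floor_iff' (by omega)).1 h2, h3⟩
  · rintro ⟨h2, h3⟩
    have := h3.1.pos
    exact ⟨⟨this, (Nat.le_floor_iff' (by omega)).2 h2⟩, h3⟩

theorem isHeight_iff {m k : ℕ} : Pool.Agent.H499R2.ND.IsHt m k ↔ Finite m ∧ h m = k := by
  constructor
  · rintro ⟨h1, h2, h3⟩
    have hf : Finite m := ⟨k, h1, h2⟩
    refine ⟨hf, ?_⟩
    have hne : {k : ℕ | 1 ≤ k ∧ C^[k] m = 1}.Nonempty := hf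
    have h4 : 1 ≤ h m ∧ C^[h m] m = 1 := Nat.sInf_mem hne
    have h5 : h m ≤ k := Nat.sInf_le ⟨h1, h2⟩
    rcases Nat.lt_or_ge (h m) k with h6 | h6
    · exact absurd h4.2 (h3 _ h4.1 h6)
    · omega
  · rintro ⟨hf, rfl⟩
    have hne : {k : ℕ | 1 ≤ k ∧ C^[k] m = 1}.Nonempty := hf
    have h4 : 1 ≤ h m ∧ C^[h m] m = 1 := Nat.sInf_mem hne
    exact ⟨h4.1, h4.2, fun j hj1 hj2 hj3 => Nat.notMem_of_lt_sInf hj2 ⟨hj1, hj3⟩⟩

theorem odd_density_of {P : ℕ → Prop} {δ : ℝ}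
    (h : Pool.Agent.H499R2.ND.Dn (fun m => m % 2 = 1 ∧ P m) (δ / 2)) : HasOddDensity P δ := by
  unfold HasOddDensity
  have h1 := h.const_mul 2
  rw [mul_div_cancel₀ δ (by norm_num : (2 : ℝ) ≠ 0)] at h1
  refine h1.congr fun M => ?_
  have e : {m : ℕ | 1 ≤ m ∧ m ≤ M ∧ m % 2 = 1 ∧ P m} = {m : ℕ | m ≤ M ∧ Odd m ∧ P m} := by
    ext m
    constructor
    · rintro ⟨g1, g2, g3, g4⟩
      exact ⟨g2, Nat.odd_iff.2 g3, g4⟩
    · rintro ⟨g2, g3, g4⟩
      exact ⟨g3.pos, g2, Nat.odd_iff.1 g3, g4⟩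
  unfold Pool.Agent.H499R2.ND.cnt
  rw [e]
  ring

/-- `P - P(0)` is not in `ℚ[X] + ℚ log_2(3) X`: a coefficient of degree at least two is irrational, or the
coefficient of degree one is not in `ℚ + ℚ log_2(3)` -/
def Good (P : ℝ[X]) : Prop :=
  (∃ i, 2 ≤ i ∧ Irrational (P.coeff i)) ∨ ∀ r s : ℚ, P.coeff 1 ≠ r + s * Real.logb 2 3

theorem law_h : ∃ (δ : ℝ) (Ψ : ℝ → ℝ), 0 < δ ∧ δ ≤ 1 ∧ (δ = 1 ↔ ∀ m : ℕ, Odd m → Finite m) ∧ HasOddDensity Finite δ ∧
    Pool.Agent.R468.MF.Law (Pool.Agent.U923.CZ.NG 2 S h) (2 / Real.log (16 / 9))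
      (2 * Real.log 2 ^ 2 / Real.log (4 / 3) ^ 3) (-Real.logb 2 3) (fun x => Real.logb 2 x) Ψ δ := by
  classical
  obtain ⟨δ, Ψ, h0, h1, h2, h3, h4, h5, h6, h7, h8⟩ := Pool.Agent.R468.LL.main
  have hodd : ∀ m : ℕ, Odd m → (Pool.Agent.H499R2.ND.Bas m ↔ Finite m) := fun m hm => by
    rw [Pool.Agent.H499R2.ND.ht_iff hm]
    constructor
    · rintro ⟨k, hk⟩; exact (isHeight_iff.1 hk).1
    · intro hf; exact ⟨h m, isHeight_iff.2 ⟨hf, rfl⟩⟩
  have hD : HasOddDensity Finite δ := by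
    apply odd_density_of
    have hB : Pool.Agent.H499R2.ND.Dn (fun m => m % 2 = 1 ∧ Pool.Agent.H499R2.ND.Bas m) (δ / 2) := by
      have := Pool.Agent.H499R2.ND.inv_prog Pool.Agent.H499R2.ND.Bas_inv h3 (q := 2) (by norm_num) 1
      exact_mod_cast this
    exact Pool.Agent.H499R2.LT.Dn_iff (fun n _ => and_congr_right fun hn => hodd n (Nat.odd_iff.2 hn)) hB
  refine ⟨δ, Ψ, h0, h1, ?_, hD, ?_⟩
  · rw [h2, Pool.Agent.H499R2.ND.bas_all_iff]
    refine forall_congr' fun m => forall_congr' fun hm => ?_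
    rw [← Pool.Agent.H499R2.ND.ht_iff hm]
    exact hodd m hm
  · have hl2 : 0 < Real.log 2 := Real.log_pos (by norm_num)
    have hl3 : 0 < Real.log (4 / 3) := Real.log_pos (by norm_num)
    have hl16 : 0 < Real.log (16 / 9) := Real.log_pos (by norm_num)
    have hirr : Irrational (Real.logb 2 3) := by
      have := Pool.Agent.R468.MF.kw_irr Pool.Agent.R468.GL.PO
      rw [Pool.Agent.R468.GL.kap_PO, Pool.Agent.R468.GL.ww_PO, neg_div] at this
      exact irrational_neg_iff.1 this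
    refine Pool.Agent.U923.CZ.law_of two_pos (by positivity) (by positivity) (irrational_neg_iff.2 hirr) h4 h5
      (fun t => (mul_nonneg h0.le hl2.le).trans (h6 t).1) h7 ?_ ?_
    · -- the density
      intro ε hε
      have hD' : Tendsto (fun M : ℕ => 2 / (M : ℝ) * ({m : ℕ | m ≤ M ∧ Odd m ∧ Finite m}.ncard : ℝ)) atTop (𝓝 δ) := hD
      obtain ⟨N₀, hN⟩ := eventually_atTop.1 (hD'.eventually_lt_const (show δ < δ + ε by linarith))
      refine ⟨max (N₀ + 1) 2, fun x hx => ?_⟩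
      have hx2 : 2 ≤ x := (le_max_right _ _).trans hx
      have hx0 : 0 < x := by linarith
      have hxN : (N₀ : ℝ) + 1 ≤ x := (le_max_left _ _).trans hx
      have g1 : N₀ ≤ ⌊x⌋₊ := Nat.le_floor (by linarith)
      have g2 : 1 ≤ ⌊x⌋₊ := Nat.le_floor (by push_cast; linarith)
      have g3 := hN ⌊x⌋₊ g1
      have hf : (0 : ℝ) < (⌊x⌋₊ : ℕ) := by exact_mod_cast g2
      have e : {m : ℕ | m ≤ ⌊x⌋₊ ∧ Odd m ∧ Finite m} = (S x : Set ℕ) := by
        ext m
        rw [Finset.mem_coe, mem_S, Set.mem_ofPred_eq, Nat.le_floor_iff hx0.le]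
      rw [e, Set.ncard_coe_finset, div_mul_eq_mul_div, div_lt_iff₀ hf] at g3
      have g4 := Nat.floor_le hx0.le
      nlinarith
    · intro K ε hε
      obtain ⟨X₀, hX⟩ := h8 K ε hε
      refine ⟨max X₀ 2, fun x hx k hk => ?_⟩
      have hx0 : 0 < x := by linarith [(le_max_right X₀ 2).trans hx]
      have g1 := hX x ((le_max_left _ _).trans hx) k hk
      have e1 : {m : ℕ | m % 2 = 1 ∧ (m : ℝ) ≤ x ∧ Pool.Agent.Y966.LD.IsHeight m k} = ((S x).filter fun m => h m = k : Finset ℕ) := by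
        ext m
        rw [Finset.mem_coe, Finset.mem_filter, mem_S, Set.mem_ofPred_eq]
        have e0 : Pool.Agent.Y966.LD.IsHeight m k ↔ Finite m ∧ h m = k := by
          rw [← isHeight_iff]
          constructor
          · rintro ⟨⟨a1, a2⟩, a3⟩
            refine ⟨a1, a2, fun j hj1 hj2 hj3 => ?_⟩
            have := a3 ⟨hj1, hj3⟩
            omega
          · rintro ⟨a1, a2, a3⟩
            refine ⟨⟨a1, a2⟩, fun j hj => ?_⟩
            by_contra hlt
            exact a3 j hj.1 (by omega) hj.2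
        rw [e0, Nat.odd_iff]
        tauto
      rw [e1, Set.ncard_coe_finset] at g1
      have e2 : Pool.Agent.R468.LL.gd x k = Pool.Agent.R468.MF.gn (2 / Real.log (16 / 9))
          (2 * Real.log 2 ^ 2 / Real.log (4 / 3) ^ 3) x k := by
        unfold Pool.Agent.R468.LL.gd Pool.Agent.R468.MF.gn Pool.Agent.R468.MF.sd
        push_cast
        rfl
      have e3 : Real.logb 2 (3 ^ k * x) = Real.logb 2 x - k * -Real.logb 2 3 := by
        rw [Real.logb_mul (by positivity) hx0.ne', Real.logb_pow]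
        ring
      rw [e2, e3] at g1
      have e4 : (2 : ℝ) * (((S x).filter fun m => h m = k).card : ℝ) / (x * Pool.Agent.R468.MF.gn (2 / Real.log (16 / 9))
          (2 * Real.log 2 ^ 2 / Real.log (4 / 3) ^ 3) x k) = (((S x).filter fun m => h m = k).card : ℝ) /
          (x / 2 * Pool.Agent.R468.MF.gn (2 / Real.log (16 / 9)) (2 * Real.log 2 ^ 2 / Real.log (4 / 3) ^ 3) x k) := by
        rw [div_mul_eq_mul_div, div_div_eq_mul_div, mul_comm (2 : ℝ)]
      rw [e4]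
      exact g1

open Pool.Agent.U923.CZ in
/-- POLYNOMIALS IN THE HEIGHTS MODULO ONE. There is `δ` with

* `0 < δ ≤ 1`, among the odd positive integers those of finite height have the natural density `δ`, and
  `δ = 1` iff all heights are finite;
* for every real polynomial `P` with `P - P(0)` not in `ℚ[X] + ℚ log_2(3) X` and `0 ≤ a ≤ b ≤ 1`: the odd
  `m` of finite height for which the fractional part of `P(h(m))` is in `[a, b)` have the natural density
  `(b - a) δ`, and this equidistribution holds at all sizes of the height: uniformly for the integers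
  `κ ≥ 0`, the number of these `m ≤ x` with `h(m) ≤ κ` is `(b - a)` times the number of the odd `m ≤ x`
  with `h(m) ≤ κ`, up to `o(x)`. -/
theorem result : ∃ δ : ℝ, 0 < δ ∧ δ ≤ 1 ∧ (δ = 1 ↔ ∀ m : ℕ, Odd m → Finite m) ∧ HasOddDensity Finite δ ∧
    ∀ P : ℝ[X], Good P → ∀ a b : ℝ, 0 ≤ a → a ≤ b → b ≤ 1 →
      HasOddDensity (fun m => Finite m ∧ a ≤ Int.fract (P.eval (h m : ℝ)) ∧ Int.fract (P.eval (h m : ℝ)) < b)
        ((b - a) * δ) ∧
      ∀ ε : ℝ, 0 < ε → ∃ X₀ : ℝ, ∀ x : ℝ, X₀ ≤ x → ∀ κ : ℕ,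
        |({m : ℕ | (m : ℝ) ≤ x ∧ Odd m ∧ Finite m ∧ h m ≤ κ ∧ a ≤ Int.fract (P.eval (h m : ℝ)) ∧
            Int.fract (P.eval (h m : ℝ)) < b}.ncard : ℝ) -
          (b - a) * {m : ℕ | (m : ℝ) ≤ x ∧ Odd m ∧ Finite m ∧ h m ≤ κ}.ncard| ≤ ε * x := by
  classical
  obtain ⟨δ, Ψ, h0, h1, h2, h3, L⟩ := law_h
  have hcard : ∀ x : ℝ, 0 < x → ((S x).card : ℝ) ≤ x := by
    intro x hx
    calc ((S x).card : ℝ) ≤ ((Finset.Icc 1 ⌊x⌋₊).card : ℕ) := by
          unfold S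
          exact_mod_cast Finset.card_filter_le _ _
      _ = (⌊x⌋₊ : ℝ) := by rw [Nat.card_Icc, Nat.add_sub_cancel]
      _ ≤ x := Nat.floor_le hx.le
  refine ⟨δ, h0, h1, h2, h3, fun P hP a b ha hab hb => ?_⟩
  have hgood : GoodP (-Real.logb 2 3) P := by
    rcases hP with h | h
    · exact Or.inl h
    · refine Or.inr fun r s hrs => h r (-s) ?_
      rw [hrs]
      push_cast
      ring
  have hcut := poly_cut L (by
    have : 0 < Real.log (16 / 9) := Real.log_pos (by norm_num)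
    positivity) two_pos (NG_lev 2 S h) hcard hgood ha hab hb
  have e1 : ∀ (x : ℝ) (κ : ℕ), {m : ℕ | (m : ℝ) ≤ x ∧ Odd m ∧ Finite m ∧ h m ≤ κ ∧ a ≤ Int.fract (P.eval (h m : ℝ)) ∧
      Int.fract (P.eval (h m : ℝ)) < b}.ncard = (((S x).filter (fun m => h m ≤ κ)).filter fun m =>
        a ≤ Int.fract (P.eval (h m : ℝ)) ∧ Int.fract (P.eval (h m : ℝ)) < b).card := by
    intro x κ
    rw [← Set.ncard_coe_finset]
    congr 1
    ext m
    rw [Finset.mem_coe, Finset.mem_filter, Finset.mem_filter, mem_S, Set.mem_ofPred_eq]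
    tauto
  have e2 : ∀ (x : ℝ) (κ : ℕ), {m : ℕ | (m : ℝ) ≤ x ∧ Odd m ∧ Finite m ∧ h m ≤ κ}.ncard = ((S x).filter (fun m => h m ≤ κ)).card := by
    intro x κ
    rw [← Set.ncard_coe_finset]
    congr 1
    ext m
    rw [Finset.mem_coe, Finset.mem_filter, mem_S, Set.mem_ofPred_eq]
    tauto
  refine ⟨?_, fun ε hε => ?_⟩
  · -- all heights
    have h3' : Tendsto (fun M : ℕ => 2 / (M : ℝ) * ({m : ℕ | m ≤ M ∧ Odd m ∧ Finite m}.ncard : ℝ)) atTop (𝓝 δ) := h3
    change Tendsto (fun M : ℕ => 2 / (M : ℝ) * ({m : ℕ | m ≤ M ∧ Odd m ∧ Finite m ∧ a ≤ Int.fract (P.eval (h m : ℝ)) ∧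
      Int.fract (P.eval (h m : ℝ)) < b}.ncard : ℝ)) atTop (𝓝 ((b - a) * δ))
    have h4 := h3'.const_mul (b - a)
    rw [Metric.tendsto_atTop] at h4 ⊢
    intro ε hε
    obtain ⟨N₁, h5⟩ := h4 (ε / 2) (by positivity)
    obtain ⟨X₀, hX⟩ := hcut (ε / 8) (by positivity)
    refine ⟨max N₁ (⌈X₀⌉₊ + 1), fun M hM => ?_⟩
    have h6 := h5 M ((le_max_left _ _).trans hM)
    have hMX : X₀ ≤ M := (Nat.le_ceil X₀).trans (by
      have := (le_max_right N₁ (⌈X₀⌉₊ + 1)).trans hM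
      exact_mod_cast (by omega : ⌈X₀⌉₊ ≤ M))
    have hM1 : 1 ≤ M := by
      have := (le_max_right N₁ (⌈X₀⌉₊ + 1)).trans hM
      omega
    have hM0 : (0 : ℝ) < M := by exact_mod_cast hM1
    -- a bound for the heights
    obtain ⟨κ, hκ⟩ : ∃ κ : ℕ, ∀ m ∈ S (M : ℝ), h m ≤ κ := ⟨(S (M : ℝ)).sup h, fun m hm => Finset.le_sup hm⟩
    have h7 := hX M hMX κ
    have e3 : (S (M : ℝ)).filter (fun m => h m ≤ κ) = S (M : ℝ) := Finset.filter_true_of_mem hκ
    rw [e3] at h7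
    have e4 : {m : ℕ | m ≤ M ∧ Odd m ∧ Finite m}.ncard = (S (M : ℝ)).card := by
      rw [← Set.ncard_coe_finset]
      congr 1
      ext m
      rw [Finset.mem_coe, mem_S, Set.mem_ofPred_eq, Nat.cast_le]
    have e5 : {m : ℕ | m ≤ M ∧ Odd m ∧ Finite m ∧ a ≤ Int.fract (P.eval (h m : ℝ)) ∧
      Int.fract (P.eval (h m : ℝ)) < b}.ncard = ((S (M : ℝ)).filter fun m =>
        a ≤ Int.fract (P.eval (h m : ℝ)) ∧ Int.fract (P.eval (h m : ℝ)) < b).card := by
      rw [← Set.ncard_coe_finset]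
      congr 1
      ext m
      rw [Finset.mem_coe, Finset.mem_filter, mem_S, Set.mem_ofPred_eq, Nat.cast_le]
      tauto
    rw [e4, Real.dist_eq] at h6
    rw [e5, Real.dist_eq]
    set s1 : ℝ := (((S (M : ℝ)).filter fun m => a ≤ Int.fract (P.eval (h m : ℝ)) ∧ Int.fract (P.eval (h m : ℝ)) < b).card : ℝ)
    set s2 : ℝ := ((S (M : ℝ)).card : ℝ)
    have h8 : |2 / (M : ℝ) * s1 - (b - a) * (2 / M * s2)| ≤ ε / 4 := by
      have e6 : 2 / (M : ℝ) * s1 - (b - a) * (2 / M * s2) = 2 / M * (s1 - (b - a) * s2) := by ring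
      rw [e6, abs_mul, abs_of_pos (by positivity)]
      calc 2 / (M : ℝ) * |s1 - (b - a) * s2| ≤ 2 / M * (ε / 8 * M) := mul_le_mul_of_nonneg_left h7 (by positivity)
        _ = ε / 4 := by field_simp; ring
    have h9 : |2 / (M : ℝ) * s1 - (b - a) * δ| ≤ |2 / (M : ℝ) * s1 - (b - a) * (2 / M * s2)| +
        |(b - a) * (2 / M * s2) - (b - a) * δ| := abs_sub_le _ _ _
    linarith
  · obtain ⟨X₀, hX⟩ := hcut ε hε
    refine ⟨X₀, fun x hx κ => ?_⟩
    rw [e1, e2]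
    exact hX x hx κ

end Pool.Agent.Results.MP_2b866c_nt.HeightsModuloOne
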