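import Mathlib
import Pool.Agent.U307.LR.F
import Pool.Agent.Results.MP_2b866c_nt.HeightsOfMersenneNumbers

set_option autoImplicit false

/-!
# Heights near the terms of linear recurrences

A sequence of integers is called smooth if, for some step `M`, its `k`-th differences with step `M` are
divisible by `4 ^ k`, for all `k`. The smooth sequences form a ring, which contains every linear
recurrence with odd last coefficient (like the Fibonacci numbers, all polynomials, all `b ^ n` with `b` odd)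
and every Newton series `∑ c_j n (n - 1) ... (n - j + 1)` (like the signed numbers of derangements). A smooth
sequence is spread modulo powers of two if and only if it is constant on no arithmetic progression. Hence
almost all of its terms have long runs of odd integers of equal heights around them.
-/

namespace Pool.Agent.Results.MP_2b866c_nt.LinearRecurrences

open Filter Topology

/-- `C(m) = (3m+1)/2^e(m)`, `2^e(m)` the largest power of `2` dividing `3m+1` -/
def C (m : ℕ) : ℕ := (3 * m + 1) / 2 ^ padicValNat 2 (3 * m + 1)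

/-- the height `h(m)`, the least `k ≥ 1` with `C^k(m) = 1`, and `⊤ = ∞` if there is none -/
noncomputable def height (m : ℕ) : ℕ∞ := sInf {k : ℕ∞ | ∃ j : ℕ, 1 ≤ j ∧ C^[j] m = 1 ∧ k = j}

/-- The `3x+1` function, with the divisions by `2` one at a time. -/
def T (n : ℕ) : ℕ := if n % 2 = 0 then n / 2 else (3 * n + 1) / 2

/-- The number of odd integers among `z, T z, ..., T^(k-1) z`. -/
def odds (k z : ℕ) : ℕ := ((Finset.range k).filter fun j => T^[j] z % 2 = 1).card

/-- The sequence `x` is spread modulo powers of two: there is `δ > 0` such that for every `ε > 0` there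
are `η > 0` and `N₀` such that, for `N ≥ N₀` and `2 ^ t ≤ N ^ δ`, at most `η 2 ^ t` classes modulo `2 ^ t`
contain together at most `ε N` of the integers `x n`, `1 ≤ n ≤ N`. -/
def Spread (x : ℕ → ℤ) : Prop :=
  ∃ δ : ℝ, 0 < δ ∧ ∀ ε : ℝ, 0 < ε → ∃ η : ℝ, 0 < η ∧ ∃ N₀ : ℕ, ∀ N : ℕ, N₀ ≤ N →
    ∀ t : ℕ, (2 : ℝ) ^ t ≤ (N : ℝ) ^ δ → ∀ A : Finset ℤ, (A.card : ℝ) ≤ η * 2 ^ t →
      (({n | 1 ≤ n ∧ n ≤ N ∧ ∃ a ∈ A, x n ≡ a [ZMOD 2 ^ t]} : Set ℕ).ncard : ℝ) ≤ ε * N

/-- `P n` holds for almost all `n`, in the sense of natural density. -/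
def AlmostAll (P : ℕ → Prop) : Prop :=
  Tendsto (fun N : ℕ => (({n | 1 ≤ n ∧ n ≤ N ∧ ¬ P n} : Set ℕ).ncard : ℝ) / N) atTop (𝓝 0)

/-- The range: `W n = √ log n / (log log n) ^ 17`. -/
noncomputable def W (n : ℕ) : ℝ := √ (Real.log n) / (Real.log (Real.log n)) ^ 17

/-- The linear recurrence `u (n + d) = c 0 u (n) + ... + c (d - 1) u (n + d - 1)` with `c 0` odd. -/
def OddRec (u : ℕ → ℤ) : Prop :=
  ∃ (d : ℕ) (c : ℕ → ℤ), 1 ≤ d ∧ Odd (c 0) ∧ ∀ n, u (n + d) = ∑ i ∈ Finset.range d, c i * u (n + i)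

/-- `u` is smooth: for some step `M ≥ 1`, `4 ^ k` divides all the `k`-th differences of `u` with step `M`,
for every `k`. -/
def Smooth (u : ℕ → ℤ) : Prop :=
  ∃ M : ℕ, 1 ≤ M ∧ ∀ k n : ℕ,
    (4 : ℤ) ^ k ∣ ∑ j ∈ Finset.range (k + 1), (-1) ^ (k - j) * (k.choose j : ℤ) * u (n + j * M)

/-- `u` is constant on no arithmetic progression. -/
def NoConst (u : ℕ → ℤ) : Prop := ∀ a q : ℕ, 1 ≤ q → ∃ m, u (a + q * m) ≠ u a

open Pool.Agent.Results.MP_2b866c_nt.HeightsOfMersenneNumbers in
theorem sp_iff (x : ℕ → ℤ) : Spread x ↔ Pool.Agent.Y967.CM.Spread x := spread_iff x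

theorem AlmostAll.mono {P Q : ℕ → Prop} (h : AlmostAll P) (hPQ : ∀ n, P n → Q n) : AlmostAll Q :=
  Pool.Agent.Results.MP_2b866c_nt.HeightsOfMersenneNumbers.AlmostAll.mono h hPQ

theorem AlmostAll.and {P Q : ℕ → Prop} (h : AlmostAll P) (h' : AlmostAll Q) :
    AlmostAll (fun n => P n ∧ Q n) := by
  classical
  unfold AlmostAll at *
  have h3 := h.add h'
  rw [add_zero] at h3
  refine squeeze_zero (fun N => by positivity) (fun N => ?_) h3
  rw [← add_div]
  apply div_le_div_of_nonneg_right _ (Nat.cast_nonneg N)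
  have h4 : ({n | 1 ≤ n ∧ n ≤ N ∧ ¬ (P n ∧ Q n)} : Set ℕ) ⊆
      {n | 1 ≤ n ∧ n ≤ N ∧ ¬ P n} ∪ {n | 1 ≤ n ∧ n ≤ N ∧ ¬ Q n} := by
    rintro n ⟨h1, h2, h5⟩
    rw [not_and_or] at h5
    rcases h5 with h5 | h5
    · left; exact ⟨h1, h2, h5⟩
    · right; exact ⟨h1, h2, h5⟩
  have hfin : ∀ R : ℕ → Prop, ({n | 1 ≤ n ∧ n ≤ N ∧ R n} : Set ℕ).Finite := fun R =>
    (Set.finite_Icc 1 N).subset fun n hn => ⟨hn.1, hn.2.1⟩
  have h5 := (Set.ncard_le_ncard h4 ((hfin _).union (hfin _))).trans (Set.ncard_union_le _ _)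
  exact_mod_cast h5

theorem smooth_const (c : ℤ) : Smooth (fun _ => c) := by
  have h : Pool.Agent.U307.LR.Smooth (fun _ => c) :=
    Pool.Agent.U307.LR.OddRec.smooth ⟨1, fun _ => 1, le_rfl, by decide, fun n => by simp⟩
  exact h

/-- (1) Every linear recurrence with odd last coefficient is smooth, and so is every Newton series
`∑ c_j n (n - 1) ... (n - j + 1)` with integers `c_j`; sums and products of smooth sequences are smooth.
(2) A smooth sequence `u` is spread if and only if it is constant on no arithmetic progression, and then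
`u (e n)` is spread for every spread sequence `e` of natural numbers.
(3) Let the sequence of natural numbers `x` be smooth and constant on no arithmetic progression, and let
the sequence of natural numbers `e` be spread. For almost all `n`, if `x (e n)` is odd and the trajectory
of an odd number `z` is at time `k` within distance `exp (W n)` of one of the numbers `3 ^ i x (e n)`,
`i ≤ W n`, then `h z + i` is the sum of `h (x (e n))` and the number of odd terms among the first `k` terms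
of the trajectory of `z` (both sides may be infinite).
(4) For such `x` and `e`, for almost all `n`, all the odd numbers `z` with `|z - x (e n)| < exp (W n) - 1`
have the same height (finite or infinite).
(5) For such `x` and `e`, for almost all `n`, all the Mersenne numbers `2 ^ m - 1` with
`x (e n) ≤ m ≤ x (e n) + W n` have the same height. (6) In particular (3), (4), (5) hold for the Fibonacci
numbers `x n = F_n`, with `e n = n` or with the primes `e n = Nat.nth Nat.Prime n`. -/
theorem result :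
    ((∀ u : ℕ → ℤ, OddRec u → Smooth u) ∧
      (∀ c : ℕ → ℤ, Smooth (fun n => ∑ j ∈ Finset.range (n + 1), c j * (n.descFactorial j : ℤ))) ∧
      (∀ u v : ℕ → ℤ, Smooth u → Smooth v → Smooth (fun n => u n + v n) ∧ Smooth (fun n => u n * v n))) ∧
    (∀ u : ℕ → ℤ, Smooth u → (Spread u ↔ NoConst u) ∧
      ∀ e : ℕ → ℕ, NoConst u → Spread (fun n => (e n : ℤ)) → Spread (fun n => u (e n))) ∧
    (∀ x e : ℕ → ℕ, Smooth (fun n => (x n : ℤ)) → NoConst (fun n => (x n : ℤ)) →
      Spread (fun n => (e n : ℤ)) →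
      AlmostAll (fun n => Odd (x (e n)) → ∀ z k i : ℕ, Odd z → (i : ℝ) ≤ W n →
        |((T^[k] z : ℕ) : ℝ) - 3 ^ i * x (e n)| ≤ Real.exp (W n) →
        height z + i = odds k z + height (x (e n))) ∧
      AlmostAll (fun n => ∀ z z' : ℕ, Odd z → Odd z' → |(z : ℝ) - x (e n)| < Real.exp (W n) - 1 →
        |(z' : ℝ) - x (e n)| < Real.exp (W n) - 1 → height z = height z') ∧
      AlmostAll (fun n => ∀ m m' : ℕ, x (e n) ≤ m → (m : ℝ) ≤ x (e n) + W n → x (e n) ≤ m' →
        (m' : ℝ) ≤ x (e n) + W n → height (2 ^ m - 1) = height (2 ^ m' - 1))) ∧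
    (Smooth (fun n => (Nat.fib n : ℤ)) ∧ NoConst (fun n => (Nat.fib n : ℤ)) ∧
      Spread (fun n => (n : ℤ)) ∧ Spread (fun n => ((Nat.nth Nat.Prime n : ℕ) : ℤ))) := by
  obtain ⟨⟨hid, hpr, -, -⟩, hH, hM⟩ :=
    Pool.Agent.Results.MP_2b866c_nt.HeightsOfMersenneNumbers.result
  have hcomp : ∀ u : ℕ → ℤ, Smooth u → ∀ e : ℕ → ℕ, NoConst u → Spread (fun n => (e n : ℤ)) →
      Spread (fun n => u (e n)) := fun u hu e hne he =>
    (sp_iff _).2 (Pool.Agent.U307.LR.Smooth.comp hu hne ((sp_iff _).1 he))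
  refine ⟨⟨fun u hu => Pool.Agent.U307.LR.OddRec.smooth hu, fun c => Pool.Agent.U307.LR.newton_smooth c,
    fun u v hu hv => ⟨Pool.Agent.U307.LR.Smooth.add hu hv, Pool.Agent.U307.LR.Smooth.mul hu hv⟩⟩,
    fun u hu => ⟨(sp_iff u).trans (Pool.Agent.U307.LR.Smooth.spread_iff hu), fun e hne he => hcomp u hu e hne he⟩,
    fun x e hx hne he => ?_, Pool.Agent.U307.LR.fib_odd.smooth, Pool.Agent.U307.LR.fib_noConst, hid, hpr⟩
  have hs : Spread (fun n => ((x (e n) : ℕ) : ℤ)) := hcomp _ hx e hne he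
  have h1 : AlmostAll (fun n => Odd (x (e n)) → ∀ z k i : ℕ, Odd z → (i : ℝ) ≤ W n →
        |((T^[k] z : ℕ) : ℝ) - 3 ^ i * x (e n)| ≤ Real.exp (W n) →
        height z + i = odds k z + height (x (e n))) := hH (fun n => x (e n)) hs
  -- the sequence `x + 1`
  have hx1 : Smooth (fun n => ((x n + 1 : ℕ) : ℤ)) := by
    have := Pool.Agent.U307.LR.Smooth.add (u := fun n => (x n : ℤ)) (v := fun _ => 1) hx (smooth_const 1)
    have e1 : (fun n => ((x n + 1 : ℕ) : ℤ)) = fun n => (x n : ℤ) + 1 := by funext n; push_cast; rfl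
    rw [e1]; exact this
  have hne1 : NoConst (fun n => ((x n + 1 : ℕ) : ℤ)) := by
    intro a q hq
    obtain ⟨m, hm⟩ := hne a q hq
    refine ⟨m, fun h => hm ?_⟩
    push_cast at h ⊢
    simpa using h
  have h2 : AlmostAll (fun n => Odd (x (e n) + 1) → ∀ z k i : ℕ, Odd z → (i : ℝ) ≤ W n →
        |((T^[k] z : ℕ) : ℝ) - 3 ^ i * ((x (e n) + 1 : ℕ) : ℝ)| ≤ Real.exp (W n) →
        height z + i = odds k z + height (x (e n) + 1)) :=
    hH (fun n => x (e n) + 1) (hcomp _ hx1 e hne1 he)
  have hW : AlmostAll (fun n => 0 ≤ W n) := by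
    have h := Pool.Agent.Results.MP_2b866c_nt.HeightsOfMersenneNumbers.dat_all (x := fun n => n) hid one_pos
    exact AlmostAll.mono h fun n hn => hn.2
  refine ⟨h1, ?_, ?_⟩
  · refine AlmostAll.mono (AlmostAll.and hW (AlmostAll.and h1 h2)) ?_
    rintro n ⟨hw, g1, g2⟩ z z' hz hz' hd hd'
    have key : ∀ y : ℕ, Odd y → (∀ z k i : ℕ, Odd z → (i : ℝ) ≤ W n →
        |((T^[k] z : ℕ) : ℝ) - 3 ^ i * (y : ℝ)| ≤ Real.exp (W n) → height z + i = odds k z + height y) →
        |(y : ℝ) - x (e n)| ≤ 1 → ∀ z : ℕ, Odd z → |(z : ℝ) - x (e n)| < Real.exp (W n) - 1 →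
        height z = height y := by
      intro y hy hyy hyx z hz hzx
      have h3 := hyy z 0 0 hz (by push_cast; exact hw) (by
        rw [Function.iterate_zero, id_eq, pow_zero, one_mul]
        have h4 : (z : ℝ) - y = ((z : ℝ) - x (e n)) - ((y : ℝ) - x (e n)) := by ring
        rw [h4]
        refine (abs_sub _ _).trans ?_
        linarith)
      have h5 : odds 0 z = 0 := rfl
      rw [h5, Nat.cast_zero, add_zero, zero_add] at h3
      exact h3
    rcases Nat.even_or_odd (x (e n)) with hp | hp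
    · have ho : Odd (x (e n) + 1) := hp.add_one
      have hle : |((x (e n) + 1 : ℕ) : ℝ) - x (e n)| ≤ 1 := by
        push_cast
        rw [add_sub_cancel_left, abs_one]
      rw [key _ ho (g2 ho) hle z hz hd, key _ ho (g2 ho) hle z' hz' hd']
    · have hle : |((x (e n) : ℕ) : ℝ) - x (e n)| ≤ 1 := by
        rw [sub_self, abs_zero]; norm_num
      rw [key _ hp (g1 hp) hle z hz hd, key _ hp (g1 hp) hle z' hz' hd']
  · have h3 := hM (fun n => x (e n)) hs
    refine AlmostAll.mono h3 ?_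
    intro n hn m m' h4 h5 h6 h7
    obtain ⟨j, rfl⟩ := Nat.exists_eq_add_of_le h4
    obtain ⟨j', rfl⟩ := Nat.exists_eq_add_of_le h6
    have g1 := (hn (x (e n)) j rfl (by
      push_cast at h5
      change (j : ℝ) ≤ W n
      linarith)).1
    have g2 := (hn (x (e n)) j' rfl (by
      push_cast at h7
      change (j' : ℝ) ≤ W n
      linarith)).1
    exact g1.trans g2.symm

end Pool.Agent.Results.MP_2b866c_nt.LinearRecurrences
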